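import Pool.Agent.Q266.RP.Stm2

/-! JOB FILC of project RP (helper266). The proof of `three` and `lcs_comm` follows
`Pool/Agent/Q257/NP/A1.lean`. -/

namespace Pool.Agent.Q231.RP.FILC

open Pool.Agent.Q266.RP
open scoped commutatorElement

/-- three subgroups lemma modulo a normal subgroup -/
theorem three {G : Type} [Group G] {A B C N : Subgroup G} [N.Normal]
    (h1 : ⁅⁅B, C⁆, A⁆ ≤ N) (h2 : ⁅⁅C, A⁆, B⁆ ≤ N) : ⁅⁅A, B⁆, C⁆ ≤ N := by
  have key : ∀ H : Subgroup G, H ≤ N ↔ Subgroup.map (QuotientGroup.mk' N) H = ⊥ := by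
    intro H
    rw [Subgroup.map_eq_bot_iff, QuotientGroup.ker_mk']
  rw [key, Subgroup.map_commutator, Subgroup.map_commutator] at h1 h2 ⊢
  exact Subgroup.commutator_commutator_eq_bot_of_rotate h1 h2

/-- `[L_i, L_j] ≤ L_{i+j+1}` -/
theorem lcs_comm {G : Type} [Group G] (j : ℕ) :
    ∀ i, ⁅(⊤ : Subgroup G).lowerCentralSeries i, (⊤ : Subgroup G).lowerCentralSeries j⁆ ≤
      (⊤ : Subgroup G).lowerCentralSeries (i + j + 1) := by
  induction j with
  | zero =>
    intro i
    rfl
  | succ j ih =>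
    intro i
    rw [Subgroup.commutator_comm]
    show ⁅⁅(⊤ : Subgroup G).lowerCentralSeries j, (⊤ : Subgroup G)⁆,
      (⊤ : Subgroup G).lowerCentralSeries i⁆ ≤
      (⊤ : Subgroup G).lowerCentralSeries (i + (j + 1) + 1)
    apply three
    · rw [Subgroup.commutator_comm ⊤]
      show ⁅(⊤ : Subgroup G).lowerCentralSeries (i + 1),
        (⊤ : Subgroup G).lowerCentralSeries j⁆ ≤
        (⊤ : Subgroup G).lowerCentralSeries (i + (j + 1) + 1)
      refine (ih (i + 1)).trans (le_of_eq ?_)
      congr 1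
      omega
    · have h1 := Subgroup.commutator_mono (ih i) (le_refl (⊤ : Subgroup G))
      exact h1

theorem filc : S_FILC := by
  intro G _
  have hn : ∀ k, (Fil G k).Normal := fun k => by
    unfold Fil
    infer_instance
  have hanti : ∀ i j : ℕ, i ≤ j → Fil G j ≤ Fil G i := fun i j hij =>
    Subgroup.lowerCentralSeries_antitone _ (by omega)
  refine ⟨?_, hn, fun k => hanti k (k + 1) (by omega)⟩
  intro i j
  rcases Nat.eq_zero_or_pos i with rfl | hi
  · haveI := hn j
    rw [zero_add]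
    exact Subgroup.commutator_le_right _ _
  rcases Nat.eq_zero_or_pos j with rfl | hj
  · haveI := hn i
    rw [add_zero]
    exact Subgroup.commutator_le_left _ _
  refine (lcs_comm (G := G) (j - 1) (i - 1)).trans ?_
  exact Subgroup.lowerCentralSeries_antitone _ (by omega)

end Pool.Agent.Q231.RP.FILC
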