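import Pool.Agent.Q266.RP.Stm

/-! JOB MAIN of project RP (helper266). -/

namespace Pool.Agent.Q231.RP.MAIN

open Pool.Agent.Q266.RP Module

theorem main (hSub : S_SUB) (hFone : S_FONE) (hFall : S_FALL) (_hComm : S_COMM) (hCyc : S_CYC)
    (hPair : S_PAIR) (hOrd : S_ORD) (hXu : S_XU) (hSchur : S_SCHUR) (hTrz : S_TRZ)
    (hDesc : S_DESC) (hStep : S_STEP) : S_MAIN := by
  have key : ∀ n : ℕ, ∀ (p : ℕ) [Fact p.Prime] (P V : Type) [Group P] [Finite P]
      [AddCommGroup V] [Module ℂ V] [FiniteDimensional ℂ V] (ρ : Representation ℂ P V),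
      Nat.card P = n → IsPGroup p P → Regular p P → Irr ρ →
      ∀ x : P, LinearMap.trace ℂ V (ρ x) ≠ 0 →
      orderOf x * (finrank ℂ V) ^ 2 ∣ Nat.card P := by
    intro n
    induction n using Nat.strong_induction_on with
    | _ n ih =>
    intro p hp P V _ _ _ _ _ ρ hn hP hReg hIrr x hx
    by_cases hker : ∀ g, ρ g = 1 → g = 1
    · have h2 := hSchur.2.1 p P V ρ hIrr hker
      by_cases hcard : Nat.card {g : P // g ^ p = 1} ≤ p
      · have hc := hCyc p P hP (hFall p P hP hReg) hcard
        have hd := hSchur.2.2 P V ρ hIrr hc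
        rw [hd]
        simpa using orderOf_dvd_natCard x
      · rw [not_le] at hcard
        obtain ⟨e, z, hez⟩ := hPair p P hP (hFone p P hP hReg) h2 hcard
        have hzc : z ∈ Subgroup.center P := hez.2.2.1
        have hzo : orderOf z = p := hez.2.2.2.1
        obtain ⟨ω, hω⟩ := hSchur.1 P V ρ hIrr z hzc
        have hω1 : ω ≠ 1 := by
          intro h
          have h1 : z = 1 := hker z (by
            ext v
            rw [hω, h, one_smul]
            rfl)
          rw [h1, orderOf_one] at hzo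
          exact hp.out.one_lt.ne hzo
        obtain ⟨C, hxC, m, hu, hN, W, σ, hσ, hfr, htr, hcd⟩ :=
          hStep p P V ρ hIrr e z hez ω hω hω1 x hx
        have hQP : IsPGroup p (C ⧸ Subgroup.zpowers (⟨e * z ^ m, hu⟩ : C)) :=
          (hP.to_subgroup C).to_quotient _
        have hQR : Regular p (C ⧸ Subgroup.zpowers (⟨e * z ^ m, hu⟩ : C)) :=
          hSub.2 p C _ (hSub.1 p P C hReg)
        have hpos : 0 < Nat.card (C ⧸ Subgroup.zpowers (⟨e * z ^ m, hu⟩ : C)) := Nat.card_pos
        have hp2 : 1 < p ^ 2 := Nat.one_lt_pow (by norm_num) hp.out.one_lt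
        have hlt : Nat.card (C ⧸ Subgroup.zpowers (⟨e * z ^ m, hu⟩ : C)) < n := by
          rw [← hn, hcd]
          nlinarith
        have hih := ih _ hlt p (C ⧸ Subgroup.zpowers (⟨e * z ^ m, hu⟩ : C)) W σ rfl hQP hQR hσ
          (QuotientGroup.mk ⟨x, hxC⟩) htr
        by_cases hbot : Subgroup.zpowers x ⊓ Subgroup.zpowers (e * z ^ m) = ⊥
        · have hbot' : Subgroup.zpowers (⟨x, hxC⟩ : C) ⊓
              Subgroup.zpowers (⟨e * z ^ m, hu⟩ : C) = ⊥ := by
            rw [eq_bot_iff]
            intro y hy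
            obtain ⟨hy1, hy2⟩ := Subgroup.mem_inf.1 hy
            obtain ⟨i, hi⟩ := Subgroup.mem_zpowers_iff.1 hy1
            obtain ⟨j, hj⟩ := Subgroup.mem_zpowers_iff.1 hy2
            have hy3 : (y : P) ∈ Subgroup.zpowers x ⊓ Subgroup.zpowers (e * z ^ m) := by
              refine Subgroup.mem_inf.2 ⟨Subgroup.mem_zpowers_iff.2 ⟨i, ?_⟩,
                Subgroup.mem_zpowers_iff.2 ⟨j, ?_⟩⟩
              · rw [← hi]
                simp
              · rw [← hj]
                simp
            rw [hbot, Subgroup.mem_bot] at hy3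
            rw [Subgroup.mem_bot]
            exact Subtype.ext hy3
          have ho := hOrd.2 C (Subgroup.zpowers (⟨e * z ^ m, hu⟩ : C)) ⟨x, hxC⟩ hbot'
          rw [ho, Subgroup.orderOf_mk] at hih
          rw [hfr, hcd]
          have h3 : orderOf x * (p * finrank ℂ W) ^ 2 =
              p ^ 2 * (orderOf x * finrank ℂ W ^ 2) := by ring
          rw [h3]
          exact Nat.mul_dvd_mul_left _ hih
        · exfalso
          haveI hzn : (Subgroup.zpowers z).Normal := by
            constructor
            intro a ha g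
            obtain ⟨i, hi⟩ := Subgroup.mem_zpowers_iff.1 ha
            have hac : a ∈ Subgroup.center P := by
              rw [← hi]
              exact Subgroup.zpow_mem _ hzc i
            have h4 : g * a * g⁻¹ = a := by
              rw [(Subgroup.mem_center_iff.1 hac g)]
              group
            rw [h4]
            exact ha
          obtain ⟨h, t, htc, ht1, hxt⟩ := hXu p P hP (hFall p P hP hReg) e z hez
            (hFall p (P ⧸ Subgroup.zpowers z) (hP.to_quotient _) (hSub.2 p P _ hReg)) m x hbot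
          obtain ⟨c, hc⟩ := hSchur.1 P V ρ hIrr t htc
          have hc1 : c ≠ 1 := by
            intro h5
            exact ht1 (hker t (by
              ext v
              rw [hc, h5, one_smul]
              rfl))
          exact hx (hTrz P V ρ x h t c hc hc1 hxt)
    · push Not at hker
      obtain ⟨g, hg1, hg2⟩ := hker
      obtain ⟨σ, hσ, hσ2⟩ := hDesc.2 P V ρ (MonoidHom.ker ρ) hIrr (fun n hn => hn)
      have hQP : IsPGroup p (P ⧸ MonoidHom.ker ρ) := hP.to_quotient _
      have hQR : Regular p (P ⧸ MonoidHom.ker ρ) := hSub.2 p P _ hReg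
      have hcd : Nat.card P = Nat.card (P ⧸ MonoidHom.ker ρ) * Nat.card (MonoidHom.ker ρ) :=
        Subgroup.card_eq_card_quotient_mul_card_subgroup _
      have hpos : 0 < Nat.card (P ⧸ MonoidHom.ker ρ) := Nat.card_pos
      have hk : 1 < Nat.card (MonoidHom.ker ρ) := by
        rw [Finite.one_lt_card_iff_nontrivial]
        exact ⟨⟨⟨g, hg1⟩, 1, fun h => hg2 (congrArg Subtype.val h)⟩⟩
      have hlt : Nat.card (P ⧸ MonoidHom.ker ρ) < n := by
        rw [← hn, hcd]
        nlinarith
      have hih := ih _ hlt p (P ⧸ MonoidHom.ker ρ) V σ rfl hQP hQR hσ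
        (QuotientGroup.mk x) (by rw [hσ2]; exact hx)
      have ho := hOrd.1 P (MonoidHom.ker ρ) x
      rw [hcd]
      refine dvd_trans (Nat.mul_dvd_mul_right ho _) ?_
      have h3 : orderOf (QuotientGroup.mk x : P ⧸ MonoidHom.ker ρ) *
          Nat.card (MonoidHom.ker ρ) * finrank ℂ V ^ 2 =
          orderOf (QuotientGroup.mk x : P ⧸ MonoidHom.ker ρ) * finrank ℂ V ^ 2 *
          Nat.card (MonoidHom.ker ρ) := by ring
      rw [h3]
      exact Nat.mul_dvd_mul_right hih _
  intro p hp P V _ _ _ _ _ ρ hP hReg hIrr x hx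
  exact key _ p P V ρ rfl hP hReg hIrr x hx

end Pool.Agent.Q231.RP.MAIN
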